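import Pool.Agent.K1H9.DV.Rel

set_option autoImplicit false

namespace Pool.Agent.Results.MP_81bbc5_al.Directed

open Pool.Agent.K1H9.DV

/-- Each connected component of the graph of the relation `≼` on isomorphism classes of
finitely generated groups that contains a virtually nilpotent group is directed under `≼`. -/
theorem result (C : marked.ConnectedComponent)
    (hC : ∃ V : FGGroup, Group.IsVirtuallyNilpotent V.carrier ∧ isoClass V ∈ C.supp) :
    DirectedSet C.supp := by
  obtain ⟨V, hV, hVC⟩ := hC
  exact main C V hV hVC

end Pool.Agent.Results.MP_81bbc5_al.Directed
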